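import Pool.Agent.Helper19.QR.Defs

/-!
# The integrals of the powers of the sine
-/

open Real

namespace Pool.Agent.Helper33.QR

open Pool.Agent.Helper19.QR

theorem S_pos (n : ℕ) : 0 < S n := integral_sin_pow_pos n

theorem S_succ (n : ℕ) : (n + 2 : ℝ) * S (n + 2) = (n + 1) * S n := by
  have h := integral_sin_pow (a := 0) (b := π) n
  have h2 : S (n + 2) = (n + 1) / (n + 2) * S n := by
    unfold S
    rw [h]
    simp
  rw [h2]
  field_simp

theorem S_step (n : ℕ) : S n - S (n + 2) = S n / (n + 2) := by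
  have h := S_succ n
  have h3 : (n + 2 : ℝ) ≠ 0 := by positivity
  field_simp
  linarith

theorem S_mul (n : ℕ) : (n + 1 : ℝ) * (S (n + 1) * S n) = 2 * π := by
  induction n with
  | zero =>
    have h0 : S 0 = π := by unfold S; simp
    have h1 : S 1 = 2 := by
      unfold S
      simp only [pow_one, integral_sin, cos_zero, cos_pi]
      norm_num
    rw [zero_add, h0, h1]
    push_cast
    ring
  | succ n ih =>
    have h := S_succ n
    push_cast
    calc (n + 1 + 1 : ℝ) * (S (n + 1 + 1) * S (n + 1))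
        = ((n + 2 : ℝ) * S (n + 2)) * S (n + 1) := by ring
      _ = (n + 1 : ℝ) * (S (n + 1) * S n) := by rw [h]; ring
      _ = 2 * π := ih

theorem S_sq_le {n : ℕ} (hn : 1 ≤ n) : S n ^ 2 ≤ 2 * π / n := by
  obtain ⟨m, rfl⟩ : ∃ m, n = m + 1 := ⟨n - 1, by omega⟩
  have h := S_mul m
  have hle : S (m + 1) ≤ S m := integral_sin_pow_succ_le m
  have hp := S_pos (m + 1)
  have hm : (0 : ℝ) < m + 1 := by positivity
  push_cast
  rw [le_div_iff₀ hm]
  have h2 : S (m + 1) ^ 2 ≤ S (m + 1) * S m := by nlinarith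
  nlinarith

theorem S_cos (n : ℕ) : ∫ t in (0 : ℝ)..π, sin t ^ n * cos t = 0 := by
  have h : ∀ t ∈ Set.uIcc (0 : ℝ) π, HasDerivAt (fun x => sin x ^ (n + 1) / (n + 1))
      (sin t ^ n * cos t) t := by
    intro t _
    have h1 : HasDerivAt (fun x => sin x ^ (n + 1) / ((n : ℝ) + 1))
        (((n + 1 : ℕ) : ℝ) * sin t ^ (n + 1 - 1) * cos t / ((n : ℝ) + 1)) t :=
      ((hasDerivAt_sin t).pow (n + 1)).div_const ((n : ℝ) + 1)
    have hn : ((n : ℝ) + 1) ≠ 0 := by positivity
    refine h1.congr_deriv ?_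
    rw [Nat.add_sub_cancel]
    push_cast
    field_simp
  rw [intervalIntegral.integral_eq_sub_of_hasDerivAt h
    (Continuous.intervalIntegrable (by fun_prop) _ _)]
  simp

end Pool.Agent.Helper33.QR
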