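import Pool.Agent.Helper33.QR.Sin

/-!
# Numerical inequalities for the fourth root bound
-/

open Real

namespace Pool.Agent.Helper33.QR

open Pool.Agent.Helper19.QR

theorem num_far {k : ℕ} (hk : 4 ≤ k) {s v : ℝ} (hs : 1 < s)
    (h : (s + 1 / s) / 2 ≤ 3 * v * ((s - 1 / s) / 2)) :
    (k : ℝ) * (k * s ^ 2 + k - 2) / (k ^ 2 * s ^ 2 - (k - 2) ^ 2) ≤ 3 * v := by
  have hs0 : 0 < s := by linarith
  have hk' : (4 : ℝ) ≤ k := by exact_mod_cast hk
  have hs2 : 0 < s ^ 2 - 1 := by nlinarith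
  have h1 : s ^ 2 + 1 ≤ 3 * v * (s ^ 2 - 1) := by
    have h2 := mul_le_mul_of_nonneg_left h (by positivity : (0 : ℝ) ≤ 2 * s)
    have e1 : 2 * s * ((s + 1 / s) / 2) = s ^ 2 + 1 := by field_simp
    have e2 : 2 * s * (3 * v * ((s - 1 / s) / 2)) = 3 * v * (s ^ 2 - 1) := by field_simp
    rw [e1, e2] at h2
    exact h2
  have h3 : (s ^ 2 + 1) / (s ^ 2 - 1) ≤ 3 * v := by
    rw [div_le_iff₀ hs2]
    exact h1
  refine le_trans ?_ h3
  have hden : 0 < (k : ℝ) ^ 2 * s ^ 2 - (k - 2) ^ 2 := by nlinarith [mul_pos hs2 (by positivity : (0 : ℝ) < (k : ℝ) ^ 2)]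
  rw [div_le_div_iff₀ hden hs2]
  nlinarith [mul_pos (by linarith : (0 : ℝ) < 6 * k - 4) (by positivity : (0 : ℝ) < s ^ 2)]

theorem num_small {k : ℕ} (hk : 4 ≤ k) (hk' : k ≤ 175) {v : ℝ} (hv : 0 < v) (hvk : v ^ 4 = k) :
    √((k : ℝ) ^ k / ((k : ℝ) - 1) ^ (k - 1)) / 2 ≤ 3 * v := by
  obtain ⟨m, rfl⟩ : ∃ m, k = m + 1 := ⟨k - 1, by omega⟩
  have hm : 3 ≤ m := by omega
  have hm0 : (0 : ℝ) < m := by
    have : (3 : ℝ) ≤ m := by exact_mod_cast hm
    linarith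
  have hkr : ((m + 1 : ℕ) : ℝ) = m + 1 := by push_cast; ring
  have hv175 : v ^ 4 ≤ 175 := by
    rw [hvk]
    exact_mod_cast hk'
  have hv2 : v ^ 2 ≤ 13229 / 1000 := by
    by_contra hc
    push Not at hc
    nlinarith
  have hX : ((m + 1 : ℕ) : ℝ) ^ (m + 1) / (((m + 1 : ℕ) : ℝ) - 1) ^ (m + 1 - 1)
      ≤ v ^ 4 * exp 1 := by
    rw [hvk, Nat.add_sub_cancel, hkr]
    have e1 : ((m : ℝ) + 1) ^ (m + 1) / ((m : ℝ) + 1 - 1) ^ m
        = (m + 1) * (1 / m + 1) ^ m := by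
      have : (1 / (m : ℝ) + 1) = (m + 1) / m := by field_simp; ring
      rw [this, div_pow, add_sub_cancel_right, pow_succ]
      ring
    rw [e1]
    refine mul_le_mul_of_nonneg_left ?_ (by positivity)
    have e2 : exp 1 = exp (1 / (m : ℝ)) ^ m := by
      rw [← exp_nat_mul]
      congr 1
      field_simp
    rw [e2]
    exact pow_le_pow_left₀ (by positivity) (add_one_le_exp _) m
  have hsq : √(((m + 1 : ℕ) : ℝ) ^ (m + 1) / (((m + 1 : ℕ) : ℝ) - 1) ^ (m + 1 - 1)) ≤ 6 * v := by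
    rw [sqrt_le_left (by positivity)]
    refine hX.trans ?_
    have he : exp 1 < 27182818286 / 10000000000 := by
      have := exp_one_lt_d9
      norm_num at this ⊢
      linarith
    have hv2' : 0 < v ^ 2 := by positivity
    have h36 : v ^ 2 * exp 1 ≤ 36 := by
      have := exp_pos 1
      nlinarith
    calc v ^ 4 * exp 1 = v ^ 2 * (v ^ 2 * exp 1) := by ring
      _ ≤ v ^ 2 * 36 := by gcongr
      _ = (6 * v) ^ 2 := by ring
  linarith

theorem S_le {k n : ℕ} (hk : 176 ≤ k) (hn : k ≤ n + 3) {v : ℝ} (hv : 0 < v) (hvk : v ^ 4 = k) :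
    S n ≤ 13 / (5 * v ^ 2) := by
  have hk' : (176 : ℝ) ≤ k := by exact_mod_cast hk
  have hn' : (k : ℝ) ≤ n + 3 := by exact_mod_cast hn
  have hn0 : (0 : ℝ) < n := by linarith
  have h := S_sq_le (n := n) (by omega)
  have hpi : π < 3.15 := pi_lt_d2
  rw [← pow_le_pow_iff_left₀ (S_pos n).le (by positivity) two_ne_zero]
  refine h.trans ?_
  have e : (13 / (5 * v ^ 2)) ^ 2 = 169 / (25 * v ^ 4) := by
    field_simp
    norm_num
  rw [e, hvk, div_le_div_iff₀ hn0 (by positivity)]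
  nlinarith

theorem num_large {k : ℕ} (hk : 176 ≤ k) {v ρ τ : ℝ} (hv : 0 < v) (hvk : v ^ 4 = k)
    (hρ : 0 < ρ) (hτ : 0 < τ) (h : τ ^ 2 = 1 + ρ ^ 2) (hvτ : 3 * v * ρ < τ) :
    ∃ l a : ℝ, 0 < l ∧ 0 ≤ a ∧
      32 / 27 * ρ * k + 11 / 8 + k / l + √(((k : ℝ) - 1) / 2) ≤ k * a ∧
      τ / 2 * (a + ((l / 2 + 1) * (k - 1) / √(k : ℝ) + cw k l) * S (k - 2)
        + k * ρ * S (k - 3)) ≤ 3 * v := by
  have hk' : (176 : ℝ) ≤ k := by exact_mod_cast hk
  have hk0 : (0 : ℝ) < k := by linarith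
  have hv364 : 364 / 100 ≤ v := by
    by_contra hc
    push Not at hc
    have h1 : v ^ 4 < (364 / 100 : ℝ) ^ 4 := pow_lt_pow_left₀ hc hv.le (by norm_num)
    rw [hvk] at h1
    norm_num at h1
    linarith
  have hv2 : 132496 / 10000 ≤ v ^ 2 := by nlinarith
  have hsqrt : √(k : ℝ) = v ^ 2 := by
    rw [← hvk, show v ^ 4 = (v ^ 2) ^ 2 by ring, sqrt_sq (by positivity)]
  have hsq : (3 * v * ρ) ^ 2 < 1 + ρ ^ 2 := by
    rw [← h]
    exact pow_lt_pow_left₀ hvτ (by positivity) two_ne_zero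
  have hρ1 : ρ ≤ 92 / 1000 := by
    by_contra hc
    push Not at hc
    have h2 : (92 / 1000 : ℝ) ^ 2 < ρ ^ 2 := pow_lt_pow_left₀ hc (by norm_num) two_ne_zero
    nlinarith
  have hρ2 : ρ ^ 2 ≤ 8464 / 1000000 := by nlinarith
  have hρv : ρ * v ≤ 335 / 1000 := by
    by_contra hc
    push Not at hc
    have h2 : (335 / 1000 : ℝ) ^ 2 < (ρ * v) ^ 2 := pow_lt_pow_left₀ hc (by norm_num) two_ne_zero
    nlinarith
  have hτ1 : τ ≤ 10043 / 10000 := by
    by_contra hc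
    push Not at hc
    have h2 : (10043 / 10000 : ℝ) ^ 2 < τ ^ 2 := pow_lt_pow_left₀ hc (by norm_num) two_ne_zero
    nlinarith
  have hkl : (k : ℝ) / (3 * v / 2) = 2 / 3 * v ^ 3 := by
    rw [← hvk]
    field_simp
  refine ⟨3 * v / 2, 2 / 5, by positivity, by norm_num, ?_, ?_⟩
  · have hs2 : √(((k : ℝ) - 1) / 2) ≤ 708 / 1000 * v ^ 2 := by
      rw [sqrt_le_left (by positivity)]
      have : (708 / 1000 * v ^ 2) ^ 2 = 501264 / 1000000 * v ^ 4 := by ring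
      rw [this, hvk]
      linarith
    rw [hkl]
    have h4 : 32 / 27 * ρ * k ≤ 32 / 27 * (92 / 1000) * k := by gcongr
    have hv3 : v ^ 3 * (364 / 100) ≤ k := by
      rw [← hvk]
      have : v ^ 4 = v ^ 3 * v := by ring
      rw [this]
      gcongr
    have hv4 : v ^ 2 * (132496 / 10000) ≤ k := by
      rw [← hvk]
      have : v ^ 4 = v ^ 2 * v ^ 2 := by ring
      rw [this]
      gcongr
    linarith
  · set P := (3 * v / 2 / 2 + 1) * ((k : ℝ) - 1) / √(k : ℝ) + cw k (3 * v / 2) with hP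
    have hP0 : 0 ≤ P := by
      rw [hP]
      unfold cw
      have : (0 : ℝ) ≤ (k : ℝ) - 1 := by linarith
      positivity
    have hP1 : P ≤ v ^ 2 * (17 / 12 * v + 126 / 100) := by
      have h5 : (3 * v / 2 / 2 + 1) * ((k : ℝ) - 1) / √(k : ℝ) ≤ (3 * v / 4 + 1) * v ^ 2 := by
        rw [hsqrt, div_le_iff₀ (by positivity)]
        have : (3 * v / 4 + 1) * v ^ 2 * v ^ 2 = (3 * v / 2 / 2 + 1) * k := by
          rw [← hvk]
          ring
        rw [this]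
        have h6 : 0 ≤ 3 * v / 2 / 2 + 1 := by positivity
        nlinarith
      have h7 : cw k (3 * v / 2) = 11 / 8 + 2 / 3 * v ^ 3 + 9 / 16 * v := by
        unfold cw
        rw [hkl]
        ring
      rw [hP, h7]
      nlinarith
    have hS2 : S (k - 2) ≤ 13 / (5 * v ^ 2) := S_le hk (by omega) hv hvk
    have hS3 : S (k - 3) ≤ 13 / (5 * v ^ 2) := S_le hk (by omega) hv hvk
    have hA : P * S (k - 2) ≤ 13 / 5 * (17 / 12 * v + 126 / 100) := by
      calc P * S (k - 2) ≤ (v ^ 2 * (17 / 12 * v + 126 / 100)) * (13 / (5 * v ^ 2)) :=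
            mul_le_mul hP1 hS2 (S_pos _).le (by positivity)
        _ = 13 / 5 * (17 / 12 * v + 126 / 100) := by
            field_simp
    have hB : k * ρ * S (k - 3) ≤ 13 / 5 * (335 / 1000) * v := by
      calc k * ρ * S (k - 3) ≤ k * ρ * (13 / (5 * v ^ 2)) := by gcongr
        _ = 13 / 5 * (ρ * v) * v := by
            rw [← hvk]
            field_simp
        _ ≤ 13 / 5 * (335 / 1000) * v := by gcongr
    have hT0 : 0 ≤ 2 / 5 + P * S (k - 2) + k * ρ * S (k - 3) := by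
      have := S_pos (k - 2)
      have := S_pos (k - 3)
      positivity
    calc τ / 2 * (2 / 5 + P * S (k - 2) + k * ρ * S (k - 3))
        ≤ (10043 / 10000) / 2 * (2 / 5 + 13 / 5 * (17 / 12 * v + 126 / 100)
            + 13 / 5 * (335 / 1000) * v) := by
          gcongr
      _ ≤ 3 * v := by linarith

end Pool.Agent.Helper33.QR
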